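import Mathlib
import Pool.Agent.H552R3.PC.DegBd3
import Pool.Agent.H552R3.PC.Quant3
import Pool.Agent.H552R3.PC.Line
import Pool.Agent.H552R3.PC.DegLine

/-! `n`-central polynomials `f` such that `f^*` is a central multiple of `f` (in particular symmetric
and skew polynomials, Lie and Jordan polynomials): the base field contains the `n`-th roots of unity
and the degree is at least `n (n + 1) / 2`. -/

set_option autoImplicit false
set_option linter.all false

namespace Pool.Agent.Results.MP_5d2531_al.DegreeBound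

open Pool.Agent.H552R3.PC

variable {K : Type*} [Field K] {σ : Type*}

/-- Every value of `f` on `n × n` matrices over `K` is a scalar matrix. -/
def ScalarValued (n : ℕ) (f : FreeAlgebra K σ) : Prop :=
  ∀ X : σ → Matrix (Fin n) (Fin n) K, ∃ c : K, FreeAlgebra.lift K X f = Matrix.scalar (Fin n) c

/-- `f` is central for `M_n(K)`: all values are scalar and `f` is not identically zero. -/
def IsCentral (n : ℕ) (f : FreeAlgebra K σ) : Prop :=
  ScalarValued n f ∧ ∃ X : σ → Matrix (Fin n) (Fin n) K, FreeAlgebra.lift K X f ≠ 0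

/-- `f` is `ν`-central for `M_n(K)`: `ν` is the least positive integer with `f ^ ν` central. -/
def IsNuCentral (n ν : ℕ) (f : FreeAlgebra K σ) : Prop :=
  0 < ν ∧ IsCentral n (f ^ ν) ∧ ∀ μ : ℕ, 0 < μ → IsCentral n (f ^ μ) → ν ≤ μ

/-- The line spanned by `f` over the centre is stable under `*`: for some signs `ε_i` and the
anti-automorphism `*` of the free algebra with `x_i^* = ε_i x_i` there are polynomials `a`, `b` with
scalar values on `M_n(K)`, `a` not identically zero there, such that `a f^* = b f` on `M_n(K)`.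
(With `a = 1`, `b = 1` or `b = -1`: `f` is symmetric or skew.) -/
def StarStable (n : ℕ) (f : FreeAlgebra K σ) : Prop :=
  ∃ (ε : σ → K) (a b : FreeAlgebra K σ), (∀ i, ε i = 1 ∨ ε i = -1) ∧
    IsCentral n a ∧ ScalarValued n b ∧
    ∀ X : σ → Matrix (Fin n) (Fin n) K,
      FreeAlgebra.lift K X (a * rev ε f) = FreeAlgebra.lift K X (b * f)

/-- Let `n` be an odd prime and `K` an infinite field.  Let `f` be an `n`-central polynomial for
`M_n(K)` which is a Lie polynomial, a Jordan polynomial or, more generally, such that `f^*` is a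
central multiple of `f` on `M_n(K)`.  Then the characteristic of `K` is not `n`, `K` contains a
primitive `n`-th root of unity, every value of `f` has characteristic polynomial `x ^ n - c` with
`c ∈ K`, and the degree of `f` is at least `n (n + 1) / 2`. -/
theorem result {K : Type*} [Field K] [Infinite K] {σ : Type*} (n : ℕ) (hn : n.Prime) (hn2 : n ≠ 2)
    (f : FreeAlgebra K σ) (hf : IsLie f ∨ IsJordan f ∨ StarStable n f)
    (hcen : IsNuCentral n n f) :
    (n : K) ≠ 0 ∧ (∃ ζ : K, IsPrimitiveRoot ζ n) ∧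
    (∀ X : σ → Matrix (Fin n) (Fin n) K,
      ∃ c : K, (FreeAlgebra.lift K X f).charpoly = Polynomial.X ^ n - Polynomial.C c) ∧
    ∀ d : ℕ, f ∈ Submodule.span K {w : FreeAlgebra K σ |
      ∃ l : List σ, l.length ≤ d ∧ w = (l.map (FreeAlgebra.ι K)).prod} →
      n * (n + 1) / 2 ≤ d := by
  have hone : IsCentral n (1 : FreeAlgebra K σ) := by
    haveI : Nonempty (Fin n) := ⟨⟨0, hn.pos⟩⟩
    refine ⟨fun X => ⟨1, by rw [map_one, map_one]⟩, fun _ => 0, ?_⟩
    rw [map_one]
    exact one_ne_zero
  have hs : StarStable n f := by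
    rcases hf with hf | hf | hf
    · exact ⟨_, 1, -1, fun _ => Or.inr rfl, hone,
        fun X => ⟨-1, by rw [map_neg, map_one, map_neg, map_one]⟩,
        fun X => by rw [rev_lie hf, one_mul, neg_one_mul]⟩
    · exact ⟨_, 1, 1, fun _ => Or.inl rfl, hone, hone.1,
        fun X => by rw [rev_jordan hf]⟩
    · exact hf
  obtain ⟨ε, a, b, hε, ⟨ha, ha0⟩, hb, hab⟩ := hs
  have hodd : Odd n := hn.odd_of_ne_two hn2
  obtain ⟨h1, ⟨h2, X0, hX0⟩, h3⟩ := hcen
  have hfX0 : FreeAlgebra.lift K X0 f ≠ 0 := by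
    intro hz
    apply hX0
    rw [map_pow, hz, zero_pow hn.ne_zero]
  have hpow : ∀ X : σ → Matrix (Fin n) (Fin n) K, ∀ Z : Matrix (Fin n) (Fin n) K,
      FreeAlgebra.lift K X (f ^ n) * Z = Z * FreeAlgebra.lift K X (f ^ n) := by
    intro X Z
    obtain ⟨c, hc⟩ := h2 X
    rw [hc]
    exact (Matrix.scalar_commute c (fun _ => Commute.all _ _) Z).eq
  -- `f` is not scalar valued
  have hns : ∃ X : σ → Matrix (Fin n) (Fin n) K, ∃ Z : Matrix (Fin n) (Fin n) K,
      FreeAlgebra.lift K X f * Z ≠ Z * FreeAlgebra.lift K X f := by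
    by_contra hcon
    push Not at hcon
    have h4 : IsCentral n (f ^ 1) := by
      rw [pow_one]
      exact ⟨fun X => scalar_of_comm _ (fun Y => hcon X Y), X0, hfX0⟩
    have h5 := h3 1 one_pos h4
    have := hn.two_le
    omega
  -- a nontrivial root of unity
  obtain ⟨ζ, hζ1, hζ⟩ : ∃ x : K, x ^ n = 1 ∧ x ≠ 1 := by
    by_contra hcon
    push Not at hcon
    obtain ⟨X, Z, hXZ⟩ := hns
    exact hXZ (final_line hn.ne_zero ε hε f a b ha hb ha0 hab n hn.pos hcon (Or.inl hodd) hpow X Z)
  have hprim : IsPrimitiveRoot ζ n := by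
    have h6 : orderOf ζ = n := orderOf_eq_prime hζ1 hζ (hp := ⟨hn⟩)
    rw [← h6]
    exact IsPrimitiveRoot.orderOf ζ
  have hnK : (n : K) ≠ 0 := by
    haveI : NeZero n := ⟨hn.ne_zero⟩
    exact hprim.neZero'.out
  have hchar := charpoly_of_ncentral hn hnK f hpow hns
  refine ⟨hnK, ⟨ζ, hprim⟩, hchar, fun d hd => ?_⟩
  have := deg_bound' hodd hn.ne_one hnK ε hε f a b ha hb ha0 hab hchar ⟨X0, hfX0⟩ d hd
  omega

end Pool.Agent.Results.MP_5d2531_al.DegreeBound
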