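import Mathlib
import Pool.Agent.H552R3.PC.Gen

/-! Lie polynomials, Jordan polynomials and all symmetrizable polynomials over an ordered field are
not `ν`-central on matrices for any `ν > 2`. -/

set_option autoImplicit false
set_option linter.all false

namespace Pool.Agent.Results.MP_5d2531_al.PositiveInvolution

open Pool.Agent.H552R3.PC

variable {K : Type*} [Field K] {σ : Type*}

/-- Every value of `f` on `n × n` matrices over `K` is a scalar matrix. -/
def ScalarValued (n : ℕ) (f : FreeAlgebra K σ) : Prop :=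
  ∀ X : σ → Matrix (Fin n) (Fin n) K, ∃ c : K, FreeAlgebra.lift K X f = Matrix.scalar (Fin n) c

/-- `f` is central for `M_n(K)`: all values are scalar and `f` is not identically zero. -/
def IsCentral (n : ℕ) (f : FreeAlgebra K σ) : Prop :=
  ScalarValued n f ∧ ∃ X : σ → Matrix (Fin n) (Fin n) K, FreeAlgebra.lift K X f ≠ 0

/-- `f` is `ν`-central for `M_n(K)`: `ν` is the least positive integer with `f ^ ν` central. -/
def IsNuCentral (n ν : ℕ) (f : FreeAlgebra K σ) : Prop :=
  0 < ν ∧ IsCentral n (f ^ ν) ∧ ∀ μ : ℕ, 0 < μ → IsCentral n (f ^ μ) → ν ≤ μ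

/-- `f` is symmetrizable for `M_n(K)`: for some signs `ε_i` and the anti-automorphism `*` of the
free algebra with `x_i^* = ε_i x_i` there is a sum of hermitian squares `a = ∑ q_j^* q_j`, not
singular everywhere on `M_n(K)`, such that `f^* a = a f` or `f^* a = - a f` modulo the identities
of `M_n(K)`.  (With `a = 1`: `f^* = ± f`.) -/
def Symmetrizable (n : ℕ) (f : FreeAlgebra K σ) : Prop :=
  ∃ (ε : σ → K) (r : ℕ) (q : Fin r → FreeAlgebra K σ),
    (∀ i, ε i = 1 ∨ ε i = -1) ∧
    (∃ X : σ → Matrix (Fin n) (Fin n) K,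
      (FreeAlgebra.lift K X (∑ j, rev ε (q j) * q j)).det ≠ 0) ∧
    ((∀ X : σ → Matrix (Fin n) (Fin n) K,
        FreeAlgebra.lift K X (rev ε f * ∑ j, rev ε (q j) * q j) =
          FreeAlgebra.lift K X ((∑ j, rev ε (q j) * q j) * f)) ∨
      (∀ X : σ → Matrix (Fin n) (Fin n) K,
        FreeAlgebra.lift K X (rev ε f * ∑ j, rev ε (q j) * q j) =
          -FreeAlgebra.lift K X ((∑ j, rev ε (q j) * q j) * f)))

theorem symmetrizable_of_rev (n : ℕ) (ε : σ → K) (hε : ∀ i, ε i = 1 ∨ ε i = -1)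
    (f : FreeAlgebra K σ) (h : rev ε f = f ∨ rev ε f = -f) : Symmetrizable n f := by
  have ha : (∑ j : Fin 1, rev ε ((fun _ : Fin 1 => (1 : FreeAlgebra K σ)) j) *
      (fun _ : Fin 1 => (1 : FreeAlgebra K σ)) j) = 1 := by
    simp [rev_one]
  refine ⟨ε, 1, fun _ => 1, hε, ⟨fun _ => 0, ?_⟩, ?_⟩
  · rw [ha, map_one, Matrix.det_one]; exact one_ne_zero
  · rw [ha]
    rcases h with h | h
    · left; intro X; rw [h, mul_one, one_mul]
    · right; intro X; rw [h, mul_one, one_mul, map_neg]

/-- Let `K` be an ordered field and `f` a noncommutative polynomial over `K` which is a Lie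
polynomial, a Jordan polynomial or, more generally, symmetrizable for `M_n(K)`.  If `f ^ ν` takes
only scalar values on `M_n(K)` for some `ν ≥ 1`, then so does `f ^ 2`, and if `ν` is odd then so does
`f` itself.  So `f` is not `ν`-central for `M_n(K)` for any `ν > 2`. -/
theorem result {K : Type*} [Field K] [LinearOrder K] [IsStrictOrderedRing K] {σ : Type*}
    (n : ℕ) (f : FreeAlgebra K σ) (hf : IsLie f ∨ IsJordan f ∨ Symmetrizable n f) :
    (∀ ν : ℕ, 0 < ν → ScalarValued n (f ^ ν) →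
      ScalarValued n (f ^ 2) ∧ (Odd ν → ScalarValued n f)) ∧
    (∀ ν : ℕ, IsNuCentral n ν f → ν ≤ 2) := by
  have hs : Symmetrizable n f := by
    rcases hf with hf | hf | hf
    · exact symmetrizable_of_rev n _ (fun _ => Or.inr rfl) f (Or.inr (rev_lie hf))
    · exact symmetrizable_of_rev n _ (fun _ => Or.inl rfl) f (Or.inl (rev_jordan hf))
    · exact hf
  obtain ⟨ε, r, q, hε, h0, hsym⟩ := hs
  have hinf := infK (K := K)
  have hmain : ∀ ν : ℕ, 0 < ν → ScalarValued n (f ^ ν) →
      ScalarValued n (f ^ 2) ∧ (Odd ν → ScalarValued n f) := by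
    intro ν hν h
    have h' : ∀ X : σ → Matrix (Fin n) (Fin n) K, ∀ Z : Matrix (Fin n) (Fin n) K,
        FreeAlgebra.lift K X f ^ ν * Z = Z * FreeAlgebra.lift K X f ^ ν := by
      intro X Z
      obtain ⟨c, hc⟩ := h X
      rw [map_pow] at hc
      rw [hc]
      exact (Matrix.scalar_commute c (fun _ => mul_comm _ _) Z).eq
    refine ⟨fun X => ?_, fun ho X => ?_⟩
    · refine scalar_of_comm _ (fun Y => ?_)
      refine generic (∑ j, rev ε (q j) * q j) (f ^ 2) h0 (fun X hX Y => ?_) X Y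
      rw [map_pow]
      exact (step ε hε f q hsym ν hν h' X hX Y).1
    · refine scalar_of_comm _ (fun Y => ?_)
      refine generic (∑ j, rev ε (q j) * q j) f h0 (fun X hX Y => ?_) X Y
      exact (step ε hε f q hsym ν hν h' X hX Y).2 ho
  refine ⟨hmain, fun ν hν => ?_⟩
  obtain ⟨h1, ⟨h2, X, hX⟩, h3⟩ := hν
  by_contra hlt
  push_neg at hlt
  have h4 := (hmain ν h1 h2).1
  have h5 : IsCentral n (f ^ 2) := by
    refine ⟨h4, X, fun hz => hX ?_⟩
    obtain ⟨m, rfl⟩ : ∃ m, ν = 2 + m := ⟨ν - 2, by omega⟩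
    rw [pow_add, map_mul, hz, zero_mul]
  have := h3 2 (by norm_num) h5
  omega

end Pool.Agent.Results.MP_5d2531_al.PositiveInvolution
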