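import Mathlib
import Pool.Agent.H552R3.PC.Line

/-! Polynomials `f` such that `f^*` is a central multiple of `f` (in particular symmetric and skew
polynomials, Lie and Jordan polynomials) are not `ν`-central over a field without nontrivial `ν`-th
roots of unity. -/

set_option autoImplicit false
set_option linter.all false

namespace Pool.Agent.Results.MP_5d2531_al.SymmetricPolynomials

open Pool.Agent.H552R3.PC

variable {K : Type*} [Field K] {σ : Type*}

/-- Every value of `f` on `n × n` matrices over `K` is a scalar matrix. -/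
def ScalarValued (n : ℕ) (f : FreeAlgebra K σ) : Prop :=
  ∀ X : σ → Matrix (Fin n) (Fin n) K, ∃ c : K, FreeAlgebra.lift K X f = Matrix.scalar (Fin n) c

/-- `f` is central for `M_n(K)`: all values are scalar and `f` is not identically zero. -/
def IsCentral (n : ℕ) (f : FreeAlgebra K σ) : Prop :=
  ScalarValued n f ∧ ∃ X : σ → Matrix (Fin n) (Fin n) K, FreeAlgebra.lift K X f ≠ 0

/-- `f` is `ν`-central for `M_n(K)`: `ν` is the least positive integer with `f ^ ν` central. -/
def IsNuCentral (n ν : ℕ) (f : FreeAlgebra K σ) : Prop :=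
  0 < ν ∧ IsCentral n (f ^ ν) ∧ ∀ μ : ℕ, 0 < μ → IsCentral n (f ^ μ) → ν ≤ μ

/-- The line spanned by `f` over the centre is stable under `*`: for some signs `ε_i` and the
anti-automorphism `*` of the free algebra with `x_i^* = ε_i x_i` there are polynomials `a`, `b` with
scalar values on `M_n(K)`, `a` not identically zero there, such that `a f^* = b f` on `M_n(K)`.
(With `a = 1`, `b = 1` or `b = -1`: `f` is symmetric or skew.) -/
def StarStable (n : ℕ) (f : FreeAlgebra K σ) : Prop :=
  ∃ (ε : σ → K) (a b : FreeAlgebra K σ), (∀ i, ε i = 1 ∨ ε i = -1) ∧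
    IsCentral n a ∧ ScalarValued n b ∧
    ∀ X : σ → Matrix (Fin n) (Fin n) K,
      FreeAlgebra.lift K X (a * rev ε f) = FreeAlgebra.lift K X (b * f)

/-- Let `K` be an infinite field of any characteristic and `ν ≥ 1` such that `1` is the only `ν`-th
root of unity in `K`; if `ν` is even assume `n ≠ 2`.  Let `f` be a noncommutative polynomial over `K`
which is a Lie polynomial, a Jordan polynomial or, more generally, such that `f^*` is a central multiple
of `f` on `M_n(K)`.  If `f ^ ν` takes only scalar values on `M_n(K)` then so does `f`; so `f` is not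
`ν`-central for `M_n(K)` unless `ν = 1`. -/
theorem result {K : Type*} [Field K] [Infinite K] {σ : Type*} (n ν : ℕ) (hν : 0 < ν)
    (hn : Odd ν ∨ n ≠ 2) (hK : ∀ x : K, x ^ ν = 1 → x = 1) (f : FreeAlgebra K σ)
    (hf : IsLie f ∨ IsJordan f ∨ StarStable n f) :
    (ScalarValued n (f ^ ν) → ScalarValued n f) ∧ (IsNuCentral n ν f → ν = 1) := by
  have hmain : ScalarValued n (f ^ ν) → ScalarValued n f := by
    intro h X
    rcases Nat.eq_zero_or_pos n with rfl | hn0
    · exact ⟨0, Subsingleton.elim _ _⟩
    have hcomm : ∀ X : σ → Matrix (Fin n) (Fin n) K, ∀ Z : Matrix (Fin n) (Fin n) K,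
        FreeAlgebra.lift K X (f ^ ν) * Z = Z * FreeAlgebra.lift K X (f ^ ν) := by
      intro X Z
      obtain ⟨c, hc⟩ := h X
      rw [hc]
      exact (Matrix.scalar_commute c (fun _ => Commute.all _ _) Z).eq
    refine scalar_of_comm _ (fun Y => ?_)
    rcases hf with hf | hf | hf
    · exact final_K _ (fun _ => Or.inr rfl) f (Or.inr fun X => by rw [rev_lie hf, map_neg])
        ν hν hK hn hcomm X Y
    · exact final_K _ (fun _ => Or.inl rfl) f (Or.inl fun X => by rw [rev_jordan hf])
        ν hν hK hn hcomm X Y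
    · obtain ⟨ε, a, b, hε, ⟨ha, ha0⟩, hb, hab⟩ := hf
      exact final_line hn0.ne' ε hε f a b ha hb ha0 hab ν hν hK hn hcomm X Y
  refine ⟨hmain, ?_⟩
  rintro ⟨h1, ⟨h2, X, hX⟩, h3⟩
  have h4 := hmain h2
  have h5 : IsCentral n (f ^ 1) := by
    rw [pow_one]
    refine ⟨h4, X, fun hz => hX ?_⟩
    rw [map_pow, hz, zero_pow hν.ne']
  have := h3 1 one_pos h5
  omega

end Pool.Agent.Results.MP_5d2531_al.SymmetricPolynomials
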